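import Pool.Agent.Run7.h574.LA.App

/-!
# MP_97eede_co: regular graphs whose local antimagic chromatic number equals the order

There are none besides the complete graphs: every connected regular noncomplete graph `G` with at
least three vertices has `χ_la(G) < |V(G)|`.
-/

set_option autoImplicit false

namespace Pool.Agent.Results.MP_97eede_co.RegularBelowOrder

open Run7.h574.LA Finset

/-- The weight of the vertex `x`: the sum of the labels of the edges incident to `x`. -/
def weight {V : Type} [Fintype V] [DecidableEq V] (G : SimpleGraph V) [DecidableRel G.Adj]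
    (f : Sym2 V → ℕ) (x : V) : ℕ :=
  ∑ e ∈ G.incidenceFinset x, f e

/-- A local antimagic labelling: a bijection from the edge set onto `{1, …, m}`, where `m` is the
number of edges, such that adjacent vertices have different weights. -/
def IsLocalAntimagic {V : Type} [Fintype V] [DecidableEq V] (G : SimpleGraph V)
    [DecidableRel G.Adj] (f : Sym2 V → ℕ) : Prop :=
  Set.BijOn f G.edgeSet (Set.Icc 1 G.edgeFinset.card) ∧
    ∀ x y, G.Adj x y → weight G f x ≠ weight G f y

/-- The local antimagic chromatic number: the least number of distinct vertex weights over all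
local antimagic labellings. -/
noncomputable def chiLa {V : Type} [Fintype V] [DecidableEq V] (G : SimpleGraph V)
    [DecidableRel G.Adj] : ℕ :=
  sInf {k | ∃ f, IsLocalAntimagic G f ∧ (univ.image (weight G f)).card = k}

section

variable {V : Type} [Fintype V] [DecidableEq V] (G : SimpleGraph V) [DecidableRel G.Adj]

theorem nb_edgeFinset (x : V) : nb G.edgeFinset x = G.neighborFinset x := by
  ext u
  rw [mem_nb, SimpleGraph.mem_edgeFinset, SimpleGraph.mem_edgeSet,
    SimpleGraph.mem_neighborFinset]

theorem weight_eq (f : Sym2 V → ℕ) (x : V) :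
    weight G f x = ∑ u ∈ nb G.edgeFinset x, f s(x, u) := by
  have h : G.incidenceFinset x = (nb G.edgeFinset x).image (fun u => s(x, u)) := by
    ext e
    rw [SimpleGraph.mem_incidenceFinset, mem_image]
    constructor
    · rintro ⟨h1, h2⟩
      obtain ⟨u, rfl⟩ := Sym2.mem_iff_exists.1 h2
      exact ⟨u, mem_nb.2 (SimpleGraph.mem_edgeFinset.2 h1), rfl⟩
    · rintro ⟨u, hu, rfl⟩
      exact ⟨SimpleGraph.mem_edgeFinset.1 (mem_nb.1 hu), Sym2.mem_mk_left _ _⟩
  unfold weight
  rw [h, sum_image (mk_injective x).injOn]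

/-- passing from integer labels to natural labels -/
theorem of_integer_labels {F : Sym2 V → ℤ} (hF : Set.InjOn F G.edgeFinset)
    (hFA : ∀ e ∈ G.edgeFinset, F e ∈ Icc (1 : ℤ) G.edgeFinset.card)
    (hne : ∀ a b, s(a, b) ∈ G.edgeFinset →
      wt F G.edgeFinset (fun _ => 0) a ≠ wt F G.edgeFinset (fun _ => 0) b) {u v : V}
    (huv : wt F G.edgeFinset (fun _ => 0) u = wt F G.edgeFinset (fun _ => 0) v) :
    ∃ f, IsLocalAntimagic G f ∧ weight G f u = weight G f v := by
  obtain ⟨f, hf⟩ : ∃ f : Sym2 V → ℕ, f = fun e => (F e).toNat := ⟨_, rfl⟩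
  have hcast : ∀ e ∈ G.edgeFinset, (f e : ℤ) = F e := by
    intro e he
    have := mem_Icc.1 (hFA e he)
    rw [hf]
    simp only
    omega
  have hw : ∀ x, (weight G f x : ℤ) = wt F G.edgeFinset (fun _ => 0) x := by
    intro x
    rw [weight_eq, Nat.cast_sum]
    unfold wt
    rw [zero_add]
    exact sum_congr rfl (fun u hu => hcast _ (mem_nb.1 hu))
  have hmaps : ∀ e ∈ G.edgeFinset, f e ∈ Icc 1 G.edgeFinset.card := by
    intro e he
    have h1 := mem_Icc.1 (hFA e he)
    have h2 := hcast e he
    rw [mem_Icc]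
    omega
  have hinj : Set.InjOn f G.edgeFinset := by
    intro a ha b hb hab
    apply hF ha hb
    rw [← hcast a ha, ← hcast b hb, hab]
  refine ⟨f, ⟨⟨?_, ?_, ?_⟩, ?_⟩, ?_⟩
  · intro e he
    exact mem_Icc.1 (hmaps e (SimpleGraph.mem_edgeFinset.2 he))
  · intro a ha b hb hab
    exact hinj (mem_coe.2 (SimpleGraph.mem_edgeFinset.2 ha))
      (mem_coe.2 (SimpleGraph.mem_edgeFinset.2 hb)) hab
  · have h3 : G.edgeFinset.image f = Icc 1 G.edgeFinset.card := by
      apply eq_of_subset_of_card_le
      · intro t ht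
        obtain ⟨e, he, rfl⟩ := mem_image.1 ht
        exact hmaps e he
      · rw [card_image_of_injOn hinj, Nat.card_Icc]
        omega
    intro t ht
    have ht' : t ∈ G.edgeFinset.image f := by
      rw [h3]
      exact mem_Icc.2 ht
    obtain ⟨e, he, het⟩ := mem_image.1 ht'
    exact ⟨e, SimpleGraph.mem_edgeFinset.1 he, het⟩
  · intro x y hxy h
    apply hne x y (SimpleGraph.mem_edgeFinset.2 hxy)
    rw [← hw, ← hw, h]
  · have := (hw u).trans (huv.trans (hw v).symm)
    exact_mod_cast this

theorem exists_equal {r : ℕ} (hc : G.Connected) (hn : 3 ≤ Fintype.card V)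
    (hr : G.IsRegularOfDegree r) {u v : V} (huv : u ≠ v) (hna : ¬ G.Adj u v) :
    ∃ f, IsLocalAntimagic G f ∧ weight G f u = weight G f v := by
  have hE : NoLoop G.edgeFinset := by
    intro x hx
    exact G.loopless.irrefl x (SimpleGraph.mem_edgeFinset.1 hx)
  have hreg : ∀ y, (nb G.edgeFinset y).card = r := by
    intro y
    rw [nb_edgeFinset, SimpleGraph.card_neighborFinset_eq_degree]
    exact hr y
  have hsum : Fintype.card V * r = 2 * G.edgeFinset.card := by
    have h1 := G.sum_degrees_eq_twice_card_edges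
    have h2 : ∑ v, G.degree v = Fintype.card V * r := by
      rw [sum_congr rfl (fun v _ => hr v), sum_const, card_univ, smul_eq_mul]
    rw [← h1, h2]
  have hcon : Fintype.card V ≤ G.edgeFinset.card + 1 := by
    have h1 := hc.card_vert_le_card_edgeSet_add_one
    rw [Nat.card_eq_fintype_card, Nat.card_eq_fintype_card, ← SimpleGraph.edgeFinset_card] at h1
    exact h1
  have hr2 : 2 ≤ r := by
    by_contra h
    have h1 : r = 0 ∨ r = 1 := by omega
    rcases h1 with rfl | rfl <;> omega
  have hnr : r + 2 ≤ Fintype.card V := by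
    have h1 : v ∉ nb G.edgeFinset u := by
      rw [mem_nb, SimpleGraph.mem_edgeFinset]
      exact hna
    have h2 : u ∉ insert v (nb G.edgeFinset u) := by
      rw [mem_insert]
      rintro (h | h)
      · exact huv h
      · exact hE u (mem_nb.1 h)
    have h3 := card_le_univ (insert u (insert v (nb G.edgeFinset u)))
    rw [card_insert_of_notMem h2, card_insert_of_notMem h1, hreg] at h3
    exact h3
  have hprod : (r + 2) * r ≤ 2 * G.edgeFinset.card := by
    rw [← hsum]
    exact Nat.mul_le_mul_right r hnr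
  obtain ⟨F, hF1, hF2, hF3, hF4⟩ := two_equal hE hr2 hreg huv
    (by rw [mem_nb, SimpleGraph.mem_edgeFinset]; exact hna) (by nlinarith)
    (fun h3 => by nlinarith)
  exact of_integer_labels G hF1 hF2 hF3 hF4

theorem chiLa_lt {f : Sym2 V → ℕ} (hf : IsLocalAntimagic G f) {u v : V} (huv : u ≠ v)
    (h : weight G f u = weight G f v) : chiLa G < Fintype.card V := by
  have h1 : chiLa G ≤ (univ.image (weight G f)).card := Nat.sInf_le ⟨f, hf, rfl⟩
  have h2 : (univ.image (weight G f)).card ≤ (univ : Finset V).card := card_image_le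
  have h3 : (univ.image (weight G f)).card ≠ (univ : Finset V).card := by
    intro h4
    exact huv (card_image_iff.1 h4 (mem_coe.2 (mem_univ u)) (mem_coe.2 (mem_univ v)) h)
  rw [card_univ] at h2 h3
  omega

end

/-- **Theorem.** Let `G` be a connected regular graph with at least three vertices. Any two
nonadjacent vertices have equal weights in some local antimagic labelling. In particular, if `G`
is not complete then `G` has a local antimagic labelling and `χ_la(G) < |V(G)|`. So no regular
noncomplete graph has `χ_la(G) = |V(G)|`. -/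
theorem result :
    (∀ (V : Type) [Fintype V] [DecidableEq V] (G : SimpleGraph V) [DecidableRel G.Adj] (r : ℕ),
      G.Connected → 3 ≤ Fintype.card V → G.IsRegularOfDegree r →
      (∀ u v, u ≠ v → ¬ G.Adj u v →
        ∃ f, IsLocalAntimagic G f ∧ weight G f u = weight G f v) ∧
      (G ≠ ⊤ → (∃ f, IsLocalAntimagic G f) ∧ chiLa G < Fintype.card V)) ∧
    ¬ ∃ (V : Type) (_ : Fintype V) (_ : DecidableEq V) (G : SimpleGraph V)
        (_ : DecidableRel G.Adj) (r : ℕ), G.Connected ∧ 3 ≤ Fintype.card V ∧
        G.IsRegularOfDegree r ∧ G ≠ ⊤ ∧ chiLa G = Fintype.card V := by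
  have main : ∀ (V : Type) [Fintype V] [DecidableEq V] (G : SimpleGraph V)
      [DecidableRel G.Adj] (r : ℕ),
      G.Connected → 3 ≤ Fintype.card V → G.IsRegularOfDegree r →
      (∀ u v, u ≠ v → ¬ G.Adj u v →
        ∃ f, IsLocalAntimagic G f ∧ weight G f u = weight G f v) ∧
      (G ≠ ⊤ → (∃ f, IsLocalAntimagic G f) ∧ chiLa G < Fintype.card V) := by
    intro V _ _ G _ r hc hn hr
    refine ⟨fun u v huv hna => exists_equal G hc hn hr huv hna, ?_⟩
    intro hG
    obtain ⟨u, v, huv, hna⟩ : ∃ u v, u ≠ v ∧ ¬ G.Adj u v := by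
      by_contra hcon
      push Not at hcon
      apply hG
      ext a b
      rw [SimpleGraph.top_adj]
      exact ⟨fun h => h.ne, fun h => hcon a b h⟩
    obtain ⟨f, hf, hfuv⟩ := exists_equal G hc hn hr huv hna
    exact ⟨⟨f, hf⟩, chiLa_lt G hf huv hfuv⟩
  refine ⟨main, ?_⟩
  rintro ⟨V, i1, i2, G, i3, r, hc, hn, hr, hG, hχ⟩
  have h1 := (@main V i1 i2 G i3 r hc hn hr).2 hG
  exact absurd hχ (ne_of_lt h1.2)

end Pool.Agent.Results.MP_97eede_co.RegularBelowOrder
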